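import Pool.Agent.MWA.StmtsB

/-!
# Block MWA, row RA2
-/

set_option autoImplicit false

namespace Pool.Agent.MWA.H98

open Pool.Agent.Helper14_MV Pool.Agent.Helper2_MV Pool.Agent.MVO Pool.Agent.MWL Pool.Agent.MWS
open Pool.Agent.MWA

/-- **RA2** -/
theorem ra2 (h1 : MWL.TrnStmt) (h2 : UseStmt) (h3 : BtfStmt) (h4 : BtaStmt) (h5 : EqvStmt)
    (h6 : RcmStmt) : Ra2Stmt := by
  intro β hβ hr hj3 hc2 θ hle _ k a b i j hda hdb hla hlb hji haθ haβ
  rcases h6 β hβ hr hj3 θ hle k a b i j hda hdb hla hlb hji haθ with h | ⟨hai, p, hp⟩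
  · exact Or.inl h
  · obtain ⟨hpi, hik, hb⟩ := hp
    have hne : j ≠ i := by
      rintro rfl
      exact haβ hai
    have hlt : j < i := lt_of_le_of_ne hji hne
    by_cases hjp : j ≤ p
    · left
      have e1 : L1 θ k a (a2 a j) := haθ
      have e2 : L1 θ k (a2 a j) (a2 (a2 a j) i) := by
        have h7 := (h1 1 (FC.ofFIC θ) k a i).2.1 (fun t => if t = j then 2 else 0)
          (AbF.mono hle hai)
        exact h7
      have e3 : L1 θ k a (a2 (a2 a j) i) := (FC.ofFIC θ).trans e1 e2
      have e4 : Bt β k b (a2 (a2 a j) i) i := by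
        refine (h2 β hβ.cl).2.1 0 1 1 2 0 2 k j p i b (a2 (a2 a j) i) (by norm_num) (by norm_num)
          (by norm_num) (by norm_num) hc2 hjp hpi.le hik ?_ ?_
        · intro t ht
          rw [hb t ht]
          by_cases c1 : t = p
          · subst c1
            have : t ≠ i := by omega
            simp [this]
          · by_cases c2 : t = i
            · subst c2
              simp [c1]
            · simp [c1, c2]
        · intro t _
          simp only [a2]
          split_ifs <;> omega
      have e5 : Bt θ k (a2 (a2 a j) i) b i := Bt.mono hle ((h4 β hβ).2.1 k _ _ i e4)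
      exact (h3 θ k a (a2 (a2 a j) i) b b e3 ((FC.ofFIC θ).refl _ _)).2 i e5
    · right
      refine h5 β hβ k a b i j i hda hdb hla hlb hlt le_rfl hai ?_
      intro r hr1 hr2
      have h7 : j ≤ r ∧ r ≤ i := by
        rcases hr1 with h | h
        · exact h
        · omega
      rw [hb r (by omega)]
      have h8 : r ≠ p := by omega
      simp [h8, hr2]

end Pool.Agent.MWA.H98
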